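import Pool.Agent.H38.AB.Targets
import Pool.Agent.H23.AF.All

/-! RG1: the triples of small height with radical smaller than the height. -/

set_option autoImplicit false

open Pool.Agent.H38.RB Pool.Agent.H38.PS Pool.Agent.H82.RD Pool.Agent.H38.AB

namespace Pool.Agent.H86.AB

theorem rg1_ht (x : Fin 3 → ℤ) (i : Fin 3) : |x i| ≤ (ht x : ℤ) := by
  have h0 : (x i).natAbs ≤ ht x := by
    unfold ht
    fin_cases i
    · exact le_max_left _ _
    · exact (le_max_left _ _).trans (le_max_right _ _)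
    · exact (le_max_right _ _).trans (le_max_right _ _)
  rw [Int.abs_eq_natAbs]
  exact_mod_cast h0

theorem rg1_mx (x : Fin 3 → ℤ) : Pool.Agent.H23.AF.mx (x 0, x 1, x 2) = (ht x : ℤ) := by
  unfold Pool.Agent.H23.AF.mx ht
  simp only [Int.abs_eq_natAbs]
  push_cast
  rfl

theorem rg1_count (X : ℝ) (N : ℕ) (S : Set (Fin 3 → ℤ))
    (hS : ∀ x ∈ S, Adm x ∧ (pd (pr x).primeFactors : ℝ) ≤ X ∧ pd (pr x).primeFactors < ht x ∧
      ht x ≤ N) :
    S.Finite ∧ S.ncard ≤ (Pool.Agent.H23.AF.Sm N X).ncard := by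
  have hfin : (Pool.Agent.H23.AF.Sm N X).Finite :=
    (Pool.Agent.H31.AE.tri_finite N).subset fun t ht => ht.1
  have hmap : ∀ x ∈ S, (fun x : Fin 3 → ℤ => (x 0, x 1, x 2)) x ∈ Pool.Agent.H23.AF.Sm N X := by
    intro x hx
    obtain ⟨⟨h0, hc, hs⟩, hR, hlt, hN⟩ := hS x hx
    have hN' : (ht x : ℤ) ≤ (N : ℤ) := by exact_mod_cast hN
    refine ⟨⟨h0 0, h0 1, h0 2, hc 0 1 (by decide), hc 0 2 (by decide), hc 1 2 (by decide), hs,
      (rg1_ht x 0).trans hN', (rg1_ht x 1).trans hN', (rg1_ht x 2).trans hN'⟩, hR, ?_⟩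
    have h1 : Pool.Agent.H23.AF.mx (x 0, x 1, x 2) = (ht x : ℤ) := rg1_mx x
    show ((pd (pr x).primeFactors : ℕ) : ℝ) < ((Pool.Agent.H23.AF.mx (x 0, x 1, x 2) : ℤ) : ℝ)
    rw [h1]
    exact_mod_cast hlt
  have hinj : Set.InjOn (fun x : Fin 3 → ℤ => (x 0, x 1, x 2)) S := by
    intro x _ y _ hxy
    simp only [Prod.mk.injEq] at hxy
    funext i
    fin_cases i
    · exact hxy.1
    · exact hxy.2.1
    · exact hxy.2.2
  exact ⟨Set.Finite.of_finite_image (hfin.subset (Set.image_subset_iff.mpr hmap)) hinj,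
    Set.ncard_le_ncard_of_injOn _ hmap hinj hfin⟩

theorem pf_RG1 : T_RG1 := by
  intro A ε hA hε
  have hA0 : 0 < A := by linarith
  obtain ⟨C, hC, h⟩ := Pool.Agent.H23.AF.pf_all (ε / A) (by positivity)
  refine ⟨C * 2 ^ (ε / A), by positivity, ?_⟩
  intro X hX
  have hX0 : 0 < X := by linarith
  have hXA1 : 1 ≤ X ^ A := Real.one_le_rpow hX hA0.le
  have key := rg1_count X ⌈X ^ A⌉₊ {x | Adm x ∧ (pd (pr x).primeFactors : ℝ) ≤ X ∧
    pd (pr x).primeFactors < ht x ∧ Real.log (ht x) ≤ A * Real.log X} (by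
      rintro x ⟨ha, hR, hlt, hlog⟩
      refine ⟨ha, hR, hlt, ?_⟩
      have hpos : (0 : ℝ) < (ht x : ℝ) := by
        have : 0 < ht x := by omega
        exact_mod_cast this
      have h1 : (ht x : ℝ) ≤ X ^ A := by
        rw [Real.rpow_def_of_pos hX0, ← Real.exp_log hpos]
        apply Real.exp_le_exp.mpr
        linarith [mul_comm (Real.log X) A]
      exact_mod_cast h1.trans (Nat.le_ceil _))
  refine ⟨key.1, ?_⟩
  have hN1 : 1 ≤ ⌈X ^ A⌉₊ := Nat.one_le_iff_ne_zero.mpr (by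
    intro h0
    rw [Nat.ceil_eq_zero] at h0
    linarith)
  have h2 := h ⌈X ^ A⌉₊ X hN1 hX
  have h3 : ((⌈X ^ A⌉₊ : ℕ) : ℝ) ≤ 2 * X ^ A := by
    have := (Nat.ceil_lt_add_one (show 0 ≤ X ^ A by linarith)).le
    linarith
  have h4 : ((⌈X ^ A⌉₊ : ℕ) : ℝ) ^ (ε / A) ≤ 2 ^ (ε / A) * X ^ ε := by
    calc ((⌈X ^ A⌉₊ : ℕ) : ℝ) ^ (ε / A) ≤ (2 * X ^ A) ^ (ε / A) :=
          Real.rpow_le_rpow (Nat.cast_nonneg _) h3 (by positivity)
      _ = 2 ^ (ε / A) * X ^ ε := by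
          rw [Real.mul_rpow (by norm_num) (by positivity), ← Real.rpow_mul hX0.le]
          congr 2
          field_simp
  calc ((({x | Adm x ∧ (pd (pr x).primeFactors : ℝ) ≤ X ∧
    pd (pr x).primeFactors < ht x ∧ Real.log (ht x) ≤ A * Real.log X} :
      Set (Fin 3 → ℤ)).ncard : ℕ) : ℝ) ≤ ((Pool.Agent.H23.AF.Sm ⌈X ^ A⌉₊ X).ncard : ℝ) := by
        exact_mod_cast key.2
    _ ≤ C * (((⌈X ^ A⌉₊ : ℕ) : ℝ) ^ (ε / A) * X ^ ((4 : ℝ) / 7)) := h2
    _ ≤ C * ((2 ^ (ε / A) * X ^ ε) * X ^ ((4 : ℝ) / 7)) := by gcongr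
    _ = C * 2 ^ (ε / A) * X ^ (4 / 7 + ε) := by
        rw [Real.rpow_add hX0]
        ring

end Pool.Agent.H86.AB
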