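import Pool.Agent.H38.AB.Targets

/-! RG2: the triples of moderate height. -/

set_option autoImplicit false

open Pool.Agent.H38.RB Pool.Agent.H38.PS Pool.Agent.H82.RD Pool.Agent.H38.AB

namespace Pool.Agent.H86.AB

theorem rg2_fac (a b c p : ℕ) (ha : a ≠ 0) (hb : b ≠ 0) (hc : c ≠ 0) (hab : a.Coprime b)
    (hac : a.Coprime c) (hbc : b.Coprime c) :
    (a * b * c).factorization p ≤
      max (a.factorization p) (max (b.factorization p) (c.factorization p)) := by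
  by_cases hp : p.Prime
  · rw [Nat.factorization_mul (mul_ne_zero ha hb) hc, Nat.factorization_mul ha hb]
    simp only [Finsupp.add_apply]
    have key : ∀ u v : ℕ, u.Coprime v → u.factorization p = 0 ∨ v.factorization p = 0 := by
      intro u v huv
      by_contra hcon
      push Not at hcon
      have h1 : p ∣ u := Nat.dvd_of_factorization_pos hcon.1
      have h2 : p ∣ v := Nat.dvd_of_factorization_pos hcon.2
      have h3 := Nat.dvd_gcd h1 h2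
      rw [huv] at h3
      exact hp.one_lt.ne' (Nat.dvd_one.mp h3)
    rcases key a b hab with h1 | h1 <;> rcases key a c hac with h2 | h2 <;>
      rcases key b c hbc with h3 | h3 <;> omega
  · rw [Nat.factorization_eq_zero_of_not_prime _ hp]
    exact Nat.zero_le _

theorem rg2_pow (x : Fin 3 → ℤ) (hx : Adm x) (p : ℕ) :
    2 ^ (pr x).factorization p ≤ ht x := by
  obtain ⟨h0, hc, -⟩ := hx
  have hne : ∀ i, (x i).natAbs ≠ 0 := fun i => Int.natAbs_ne_zero.mpr (h0 i)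
  have hco : ∀ i j, i ≠ j → (x i).natAbs.Coprime (x j).natAbs := by
    intro i j hij
    have := Int.isCoprime_iff_gcd_eq_one.mp (hc i j hij)
    rwa [Int.gcd_def] at this
  have hpr : pr x = (x 0).natAbs * (x 1).natAbs * (x 2).natAbs := by
    unfold pr
    rw [Int.natAbs_mul, Int.natAbs_mul]
  by_cases hp : p.Prime
  · have key : ∀ i, 2 ^ (x i).natAbs.factorization p ≤ ht x := by
      intro i
      have h1 : (x i).natAbs ≤ ht x := by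
        unfold ht
        fin_cases i
        · exact le_max_left _ _
        · exact (le_max_left _ _).trans (le_max_right _ _)
        · exact (le_max_right _ _).trans (le_max_right _ _)
      have h2 : p ^ (x i).natAbs.factorization p ≤ (x i).natAbs := Nat.ordProj_le p (hne i)
      have h3 : 2 ^ (x i).natAbs.factorization p ≤ p ^ (x i).natAbs.factorization p :=
        Nat.pow_le_pow_left hp.two_le _
      exact h3.trans (h2.trans h1)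
    have h4 := rg2_fac (x 0).natAbs (x 1).natAbs (x 2).natAbs p (hne 0) (hne 1) (hne 2)
      (hco 0 1 (by decide)) (hco 0 2 (by decide)) (hco 1 2 (by decide))
    rw [← hpr] at h4
    rcases le_max_iff.mp h4 with h5 | h5
    · exact (Nat.pow_le_pow_right (by norm_num) h5).trans (key 0)
    · rcases le_max_iff.mp h5 with h6 | h6
      · exact (Nat.pow_le_pow_right (by norm_num) h6).trans (key 1)
      · exact (Nat.pow_le_pow_right (by norm_num) h6).trans (key 2)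
  · rw [Nat.factorization_eq_zero_of_not_prime _ hp, pow_zero]
    have : (x 0).natAbs ≤ ht x := le_max_left _ _
    have := hne 0
    omega

theorem rg2_fw (X β : ℝ) (x : Fin 3 → ℤ) (hx : Adm x)
    (hR : (pd (pr x).primeFactors : ℝ) ≤ X)
    (hw : ((pr x).primeFactors.card : ℝ) ≤ Real.log X ^ β)
    (hh : Real.log (ht x) ≤ Real.exp (Real.log X ^ (1 / 2 : ℝ))) :
    x ∈ Fw X ⌊Real.log X ^ β⌋₊ ⌊2 * Real.exp (Real.log X ^ (1 / 2 : ℝ))⌋₊ := by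
  refine ⟨hx, hR, Nat.le_floor hw, fun p => Nat.le_floor ?_⟩
  have h1 := rg2_pow x hx p
  have h2 : ((2 : ℝ) ^ (pr x).factorization p) ≤ (ht x : ℝ) := by exact_mod_cast h1
  have h3 : Real.log ((2 : ℝ) ^ (pr x).factorization p) ≤ Real.log (ht x) :=
    Real.log_le_log (by positivity) h2
  rw [Real.log_pow] at h3
  have h4 : (1 : ℝ) / 2 ≤ Real.log 2 := by linarith [Real.log_two_gt_d9]
  have h5 : ((pr x).factorization p : ℝ) * (1 / 2) ≤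
      ((pr x).factorization p : ℝ) * Real.log 2 :=
    mul_le_mul_of_nonneg_left h4 (Nat.cast_nonneg _)
  linarith

theorem rg2_V (X : ℝ) (hX : 2 ≤ X) :
    ((⌊2 * Real.exp (Real.log X ^ (1 / 2 : ℝ))⌋₊ : ℕ) : ℝ) ≤
      Real.exp (2 * Real.log X ^ (1 / 2 : ℝ)) := by
  have h1 : ((⌊2 * Real.exp (Real.log X ^ (1 / 2 : ℝ))⌋₊ : ℕ) : ℝ) ≤
      2 * Real.exp (Real.log X ^ (1 / 2 : ℝ)) := Nat.floor_le (by positivity)
  have hl2 : 0 < Real.log 2 := Real.log_pos (by norm_num)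
  have hl2' : Real.log 2 ≤ 1 := by linarith [Real.log_two_lt_d9]
  have hlX : Real.log 2 ≤ Real.log X := Real.log_le_log (by norm_num) hX
  have h2 : Real.log 2 ≤ Real.log X ^ (1 / 2 : ℝ) := by
    rw [← Real.sqrt_eq_rpow]
    apply Real.le_sqrt_of_sq_le
    nlinarith
  have h3 : (2 : ℝ) ≤ Real.exp (Real.log X ^ (1 / 2 : ℝ)) := by
    calc (2 : ℝ) = Real.exp (Real.log 2) := (Real.exp_log (by norm_num)).symm
      _ ≤ _ := Real.exp_le_exp.mpr h2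
  refine h1.trans ?_
  have h4 : Real.exp (2 * Real.log X ^ (1 / 2 : ℝ)) =
      Real.exp (Real.log X ^ (1 / 2 : ℝ)) * Real.exp (Real.log X ^ (1 / 2 : ℝ)) := by
    rw [← Real.exp_add]
    congr 1
    ring
  rw [h4]
  exact mul_le_mul_of_nonneg_right h3 (Real.exp_pos _).le

theorem pf_RG2 (hNUM3 : T_NUM3) (hCLE : T_CLE) (hCLA : T_CLA) (hCLJ : T_CLJ) (hSLE : T_SLE) :
    T_RG2 := by
  intro β ε hβ0 hβ hε
  obtain ⟨D, A₀, hD, hA₀, hS⟩ := hSLE (ε / 2) (by linarith)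
  obtain ⟨CN, hCN, hN⟩ := hNUM3 11 β (ε / 2) hβ0 hβ (by linarith)
  obtain ⟨CJ, hCJ, hJ⟩ := hCLJ D β (ε / 2) hD hβ0 hβ (by linarith)
  refine ⟨A₀, 2 * CN + CJ, hA₀, by linarith, ?_⟩
  intro X hX
  have hX0 : 0 < X := by linarith
  have hX1 : 1 ≤ X := by linarith
  obtain ⟨Ω, hΩ⟩ : ∃ Ω : ℕ, Ω = ⌊Real.log X ^ β⌋₊ := ⟨_, rfl⟩
  obtain ⟨V, hV⟩ : ∃ V : ℕ, V = ⌊2 * Real.exp (Real.log X ^ (1 / 2 : ℝ))⌋₊ := ⟨_, rfl⟩
  obtain ⟨Z, hZ⟩ : ∃ Z : ℝ, Z = X ^ (5 / 9 + ε / 2) := ⟨_, rfl⟩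
  have hZ0 : 0 ≤ Z := by
    rw [hZ]
    positivity
  have hΩ' : (Ω : ℝ) ≤ Real.log X ^ β := by
    rw [hΩ]
    exact Nat.floor_le (Real.rpow_nonneg (Real.log_nonneg hX1) _)
  have hV' : (V : ℝ) ≤ Real.exp (2 * Real.log X ^ (1 / 2 : ℝ)) := by
    rw [hV]
    exact rg2_V X hX
  have hLo : Lo 11 X Ω V ≤ CN * X ^ (ε / 2) := hN X Ω V hX hΩ' hV'
  obtain ⟨fE, cE⟩ := hCLE X Z Ω V hX hZ0
  obtain ⟨fA, cA⟩ := hCLA X Ω V hX
  obtain ⟨fJ, cJ⟩ := hJ X Z Ω V hX hZ0 hΩ' hV'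
  obtain ⟨S, hSdef⟩ : ∃ S : Set (Fin 3 → ℤ), S = {x | Adm x ∧
    (pd (pr x).primeFactors : ℝ) ≤ X ∧
    ((pr x).primeFactors.card : ℝ) ≤ Real.log X ^ β ∧ A₀ * Real.log X ≤ Real.log (ht x) ∧
    Real.log (ht x) ≤ Real.exp (Real.log X ^ (1 / 2 : ℝ))} := ⟨_, rfl⟩
  have hsub : S ⊆ {x | x ∈ Fw X Ω V ∧ PA X x} ∪ ({x | x ∈ Fw X Ω V ∧ PE X Z x} ∪
      {x | x ∈ Fw X Ω V ∧ PJ D Z x}) := by
    intro x hx
    rw [hSdef] at hx
    obtain ⟨ha, hR, hw, hlo, hhi⟩ := hx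
    have hfw : x ∈ Fw X Ω V := by
      rw [hΩ, hV]
      exact rg2_fw X β x ha hR hw hhi
    rcases hS X x hX ha hR hlo with h | h | h
    · exact Or.inl ⟨hfw, h⟩
    · exact Or.inr (Or.inl ⟨hfw, by rw [hZ]; exact h⟩)
    · exact Or.inr (Or.inr ⟨hfw, by rw [hZ]; exact h⟩)
  have hfin : ({x | x ∈ Fw X Ω V ∧ PA X x} ∪ ({x | x ∈ Fw X Ω V ∧ PE X Z x} ∪
      {x | x ∈ Fw X Ω V ∧ PJ D Z x})).Finite := fA.union (fE.union fJ)
  rw [← hSdef]
  refine ⟨hfin.subset hsub, ?_⟩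
  have h1 : S.ncard ≤ ({x | x ∈ Fw X Ω V ∧ PA X x}).ncard +
      (({x | x ∈ Fw X Ω V ∧ PE X Z x}).ncard + ({x | x ∈ Fw X Ω V ∧ PJ D Z x}).ncard) :=
    (Set.ncard_le_ncard hsub hfin).trans ((Set.ncard_union_le _ _).trans
      (Nat.add_le_add_left (Set.ncard_union_le _ _) _))
  have h2 : (S.ncard : ℝ) ≤ (({x | x ∈ Fw X Ω V ∧ PA X x}).ncard : ℝ) +
      ((({x | x ∈ Fw X Ω V ∧ PE X Z x}).ncard : ℝ) +
        (({x | x ∈ Fw X Ω V ∧ PJ D Z x}).ncard : ℝ)) := by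
    exact_mod_cast h1
  have e1 : Z * X ^ (ε / 2) = X ^ (5 / 9 + ε) := by
    rw [hZ, ← Real.rpow_add hX0]
    congr 1
    ring
  have e2 : X ^ (1 / 2 : ℝ) * X ^ (ε / 2) ≤ X ^ (5 / 9 + ε) := by
    rw [← Real.rpow_add hX0]
    exact Real.rpow_le_rpow_of_exponent_le hX1 (by linarith)
  have b1 : (({x | x ∈ Fw X Ω V ∧ PA X x}).ncard : ℝ) ≤ CN * X ^ (5 / 9 + ε) := by
    calc (({x | x ∈ Fw X Ω V ∧ PA X x}).ncard : ℝ) ≤ X ^ (1 / 2 : ℝ) * Lo 11 X Ω V := cA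
      _ ≤ X ^ (1 / 2 : ℝ) * (CN * X ^ (ε / 2)) := by gcongr
      _ = CN * (X ^ (1 / 2 : ℝ) * X ^ (ε / 2)) := by ring
      _ ≤ CN * X ^ (5 / 9 + ε) := by gcongr
  have b2 : (({x | x ∈ Fw X Ω V ∧ PE X Z x}).ncard : ℝ) ≤ CN * X ^ (5 / 9 + ε) := by
    calc (({x | x ∈ Fw X Ω V ∧ PE X Z x}).ncard : ℝ) ≤ Z * Lo 11 X Ω V := cE
      _ ≤ Z * (CN * X ^ (ε / 2)) := by gcongr
      _ = CN * (Z * X ^ (ε / 2)) := by ring
      _ = CN * X ^ (5 / 9 + ε) := by rw [e1]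
  have b3 : (({x | x ∈ Fw X Ω V ∧ PJ D Z x}).ncard : ℝ) ≤ CJ * X ^ (5 / 9 + ε) := by
    calc (({x | x ∈ Fw X Ω V ∧ PJ D Z x}).ncard : ℝ) ≤ CJ * Z * X ^ (ε / 2) := cJ
      _ = CJ * (Z * X ^ (ε / 2)) := by ring
      _ = CJ * X ^ (5 / 9 + ε) := by rw [e1]
  calc (S.ncard : ℝ) ≤ CN * X ^ (5 / 9 + ε) + (CN * X ^ (5 / 9 + ε) + CJ * X ^ (5 / 9 + ε)) :=
        h2.trans (add_le_add b1 (add_le_add b2 b3))
    _ = (2 * CN + CJ) * X ^ (5 / 9 + ε) := by ring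

end Pool.Agent.H86.AB
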